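import Mathlib

/-!
Metric ultraproducts of groups with bi-invariant metrics (helper71, Part 2 of row 1092).
-/

namespace H71MU

open Filter Topology

universe u v

/-- `d` is a bi-invariant metric on the group `G`. -/
structure BiMetric (G : Type*) [Group G] (d : G → G → ℝ) : Prop where
  eq_zero_iff : ∀ a b, d a b = 0 ↔ a = b
  symm : ∀ a b, d a b = d b a
  triangle : ∀ a b c, d a c ≤ d a b + d b c
  left : ∀ g a b, d (g * a) (g * b) = d a b
  right : ∀ g a b, d (a * g) (b * g) = d a b

namespace BiMetric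

variable {G : Type*} [Group G] {d : G → G → ℝ} (hd : BiMetric G d)
include hd

lemma self (a : G) : d a a = 0 := (hd.eq_zero_iff a a).2 rfl

lemma nonneg (a b : G) : 0 ≤ d a b := by
  have h1 := hd.triangle a b a
  rw [hd.self, hd.symm b a] at h1
  linarith

lemma inv_one (a : G) : d a⁻¹ 1 = d a 1 := by
  have h := hd.left a a⁻¹ 1
  rw [mul_inv_cancel, mul_one] at h
  rw [← h, hd.symm]

lemma mul_le (a b : G) : d (a * b) 1 ≤ d a 1 + d b 1 := by
  have h1 := hd.triangle (a * b) b 1
  have h2 := hd.right b a 1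
  rw [one_mul] at h2
  linarith

lemma conj (g a : G) : d (g * a * g⁻¹) 1 = d a 1 := by
  have h1 := hd.right g (g * a * g⁻¹) 1
  rw [inv_mul_cancel_right, one_mul] at h1
  have h2 := hd.left g a 1
  rw [mul_one] at h2
  rw [← h1, h2]

lemma eq_left (a b : G) : d a b = d (a⁻¹ * b) 1 := by
  have h := hd.left a⁻¹ a b
  rw [inv_mul_cancel] at h
  rw [← h, hd.symm]

end BiMetric

variable {ι : Type u} {H : ι → Type v} [∀ i, Group (H i)]
  (U : Ultrafilter ι) (d : ∀ i, H i → H i → ℝ) (hd : ∀ i, BiMetric (H i) (d i))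

/-- The group `B` of all families `h` with `sup_i d_i(h_i, 1) < ∞`. -/
def Bounded : Subgroup (∀ i, H i) where
  carrier := {h | ∃ C : ℝ, ∀ i, d i (h i) 1 ≤ C}
  one_mem' := ⟨0, fun i => by simp [(hd i).self]⟩
  mul_mem' := by
    rintro a b ⟨C, hC⟩ ⟨D, hD⟩
    exact ⟨C + D, fun i => ((hd i).mul_le _ _).trans (add_le_add (hC i) (hD i))⟩
  inv_mem' := by
    rintro a ⟨C, hC⟩
    exact ⟨C, fun i => by rw [Pi.inv_apply, (hd i).inv_one]; exact hC i⟩

/-- The subgroup `N` of `B` of all families `h` in `B` with `lim_U d_i(h_i, 1) = 0`. -/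
def Null : Subgroup (Bounded d hd) where
  carrier := {h | Tendsto (fun i => d i (h.1 i) 1) (U : Filter ι) (𝓝 0)}
  one_mem' := by
    have : (fun i => d i ((1 : Bounded d hd).1 i) 1) = fun _ => (0 : ℝ) := by
      funext i
      simp [(hd i).self]
    show Tendsto _ _ _
    rw [this]
    exact tendsto_const_nhds
  mul_mem' := by
    intro a b ha hb
    have h := Tendsto.add ha hb
    rw [add_zero] at h
    exact squeeze_zero (fun i => (hd i).nonneg _ _) (fun i => (hd i).mul_le _ _) h
  inv_mem' := by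
    intro a ha
    have : (fun i => d i ((a⁻¹ : Bounded d hd).1 i) 1) = fun i => d i (a.1 i) 1 := by
      funext i
      exact (hd i).inv_one _
    show Tendsto _ _ _
    rw [this]
    exact ha

lemma mem_Null (h : Bounded d hd) :
    h ∈ Null U d hd ↔ Tendsto (fun i => d i (h.1 i) 1) (U : Filter ι) (𝓝 0) := Iff.rfl

instance Null_normal : (Null U d hd).Normal := by
  constructor
  intro n hn g
  have : (fun i => d i ((g * n * g⁻¹ : Bounded d hd).1 i) 1) = fun i => d i (n.1 i) 1 := by
    funext i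
    exact (hd i).conj _ _
  rw [mem_Null, this]
  exact hn

/-- The metric ultraproduct `B / N` of the groups `H i` with the bi-invariant metrics `d i`
along the ultrafilter `U`, as a group. -/
abbrev Ultraproduct := Bounded d hd ⧸ Null U d hd

/-- The metric of the ultraproduct: `d(hN, kN) = lim_U d_i(h_i, k_i)`.  Theorem `tendsto_udist`
says that the limit exists and does not depend on the representatives. -/
noncomputable def udist (a b : Ultraproduct U d hd) : ℝ :=
  limUnder (U : Filter ι) (fun i => d i ((Quotient.out a).1 i) ((Quotient.out b).1 i))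

lemma exists_lim (h k : Bounded d hd) :
    ∃ l : ℝ, Tendsto (fun i => d i (h.1 i) (k.1 i)) (U : Filter ι) (𝓝 l) := by
  obtain ⟨C, hC⟩ := h.2
  obtain ⟨D, hD⟩ := k.2
  have hmem : Set.Icc (0 : ℝ) (C + D) ∈ U.map (fun i => d i (h.1 i) (k.1 i)) := by
    rw [Ultrafilter.mem_map]
    refine Filter.univ_mem' (fun i => ?_)
    refine ⟨(hd i).nonneg _ _, ?_⟩
    have h1 := (hd i).triangle (h.1 i) 1 (k.1 i)
    rw [(hd i).symm 1 (k.1 i)] at h1
    exact h1.trans (add_le_add (hC i) (hD i))
  obtain ⟨l, -, hl⟩ := isCompact_Icc.ultrafilter_le_nhds' _ hmem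
  exact ⟨l, hl⟩

/-- The metric of the ultraproduct is the limit of the metrics, for all representatives. -/
theorem tendsto_udist (h k : Bounded d hd) :
    Tendsto (fun i => d i (h.1 i) (k.1 i)) (U : Filter ι)
      (𝓝 (udist U d hd (QuotientGroup.mk h) (QuotientGroup.mk k))) := by
  set h' : Bounded d hd := Quotient.out (QuotientGroup.mk h : Ultraproduct U d hd) with hh'
  set k' : Bounded d hd := Quotient.out (QuotientGroup.mk k : Ultraproduct U d hd) with hk'
  have e1 : (QuotientGroup.mk h' : Ultraproduct U d hd) = QuotientGroup.mk h :=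
    QuotientGroup.out_eq' _
  have e2 : (QuotientGroup.mk k' : Ultraproduct U d hd) = QuotientGroup.mk k :=
    QuotientGroup.out_eq' _
  rw [QuotientGroup.eq, mem_Null] at e1 e2
  obtain ⟨l, hl⟩ := exists_lim U d hd h' k'
  have hlim : udist U d hd (QuotientGroup.mk h) (QuotientGroup.mk k) = l := hl.limUnder_eq
  rw [hlim]
  -- differences are null
  have e1' : Tendsto (fun i => d i (h'.1 i) (h.1 i)) (U : Filter ι) (𝓝 0) := by
    refine e1.congr (fun i => ?_)
    exact ((hd i).eq_left _ _).symm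
  have e2' : Tendsto (fun i => d i (k'.1 i) (k.1 i)) (U : Filter ι) (𝓝 0) := by
    refine e2.congr (fun i => ?_)
    exact ((hd i).eq_left _ _).symm
  have hup : Tendsto (fun i => d i (h'.1 i) (k'.1 i) + (d i (h'.1 i) (h.1 i)
      + d i (k'.1 i) (k.1 i))) (U : Filter ι) (𝓝 l) := by
    simpa using hl.add (e1'.add e2')
  have hlow : Tendsto (fun i => d i (h'.1 i) (k'.1 i) - (d i (h'.1 i) (h.1 i)
      + d i (k'.1 i) (k.1 i))) (U : Filter ι) (𝓝 l) := by
    simpa using hl.sub (e1'.add e2')
  refine tendsto_of_tendsto_of_tendsto_of_le_of_le hlow hup (fun i => ?_) (fun i => ?_)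
  · have t1 := (hd i).triangle (h'.1 i) (h.1 i) (k'.1 i)
    have t2 := (hd i).triangle (h.1 i) (k.1 i) (k'.1 i)
    rw [(hd i).symm (k.1 i) (k'.1 i)] at t2
    simp only
    linarith
  · have t1 := (hd i).triangle (h.1 i) (h'.1 i) (k.1 i)
    have t2 := (hd i).triangle (h'.1 i) (k'.1 i) (k.1 i)
    rw [(hd i).symm (h.1 i) (h'.1 i)] at t1
    simp only
    linarith

/-- `G` with the function `ρ` is isometrically isomorphic to a subgroup of a metric ultraproduct
of finite groups with bi-invariant metrics. -/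
def EmbedsInFiniteUltraproduct (G : Type u) [Group G] (ρ : G → G → ℝ) : Prop :=
  ∃ (ι : Type u) (H : ι → Type u) (_ : ∀ i, Group (H i)) (_ : ∀ i, Finite (H i))
    (d : ∀ i, H i → H i → ℝ) (hd : ∀ i, BiMetric (H i) (d i)) (U : Ultrafilter ι)
    (φ : G →* Ultraproduct U d hd),
    Function.Injective φ ∧ ∀ x y, udist U d hd (φ x) (φ y) = ρ x y

/-- The embedding criterion. -/
theorem embeds_of_local {G : Type u} [Group G] {ρ : G → G → ℝ} (hρ : BiMetric G ρ)
    (hloc : ∀ B : Finset G, ∃ (F : Type u) (_ : Group F) (_ : Finite F) (dF : F → F → ℝ)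
      (_ : BiMetric F dF) (f : G → F),
      (∀ x, dF (f x) 1 ≤ ρ x 1) ∧
      (∀ x ∈ B, ∀ y ∈ B, x * y ∈ B → f (x * y) = f x * f y) ∧
      (∀ x ∈ B, ∀ y ∈ B, dF (f x) (f y) = ρ x y)) :
    EmbedsInFiniteUltraproduct G ρ := by
  classical
  choose F iF finF dF hdF f hf1 hf2 hf3 using hloc
  let U : Ultrafilter (Finset G) := Ultrafilter.of (atTop : Filter (Finset G))
  have hU : ∀ B : Finset G, ∀ᶠ A in (U : Filter (Finset G)), B ⊆ A := fun B =>
    (Ultrafilter.of_le (atTop : Filter (Finset G))) (eventually_ge_atTop B)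
  let fam : G → Bounded dF hdF := fun x => ⟨fun B => f B x, ⟨ρ x 1, fun B => hf1 B x⟩⟩
  have hdist : ∀ x y, udist U dF hdF (QuotientGroup.mk (fam x)) (QuotientGroup.mk (fam y))
      = ρ x y := by
    intro x y
    have h1 := tendsto_udist U dF hdF (fam x) (fam y)
    have h2 : Tendsto (fun i => dF i ((fam x).1 i) ((fam y).1 i)) (U : Filter (Finset G))
        (𝓝 (ρ x y)) := by
      refine Tendsto.congr' ?_ tendsto_const_nhds
      filter_upwards [hU {x, y}] with A hA
      exact (hf3 A x (hA (by simp)) y (hA (by simp))).symm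
    exact tendsto_nhds_unique h1 h2
  have hmul : ∀ x y, (QuotientGroup.mk (fam (x * y)) : Ultraproduct U dF hdF)
      = QuotientGroup.mk (fam x) * QuotientGroup.mk (fam y) := by
    intro x y
    rw [← QuotientGroup.mk_mul, QuotientGroup.eq, mem_Null]
    refine Tendsto.congr' ?_ tendsto_const_nhds
    filter_upwards [hU {x, y, x * y}] with A hA
    have h1 : f A (x * y) = f A x * f A y :=
      hf2 A x (hA (by simp)) y (hA (by simp)) (hA (by simp))
    have h2 : ((fam (x * y))⁻¹ * (fam x * fam y)).1 A = 1 := by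
      show (f A (x * y))⁻¹ * (f A x * f A y) = 1
      rw [h1, inv_mul_cancel]
    rw [h2, (hdF A).self]
  let φ : G →* Ultraproduct U dF hdF := MonoidHom.mk' (fun x => QuotientGroup.mk (fam x)) hmul
  refine ⟨Finset G, F, iF, finF, dF, hdF, U, φ, ?_, hdist⟩
  intro x y hxy
  have h1 := hdist x y
  have h2 := hdist y y
  have h3 : (QuotientGroup.mk (fam x) : Ultraproduct U dF hdF) = QuotientGroup.mk (fam y) := hxy
  rw [h3, h2, hρ.self] at h1
  exact (hρ.eq_zero_iff x y).1 h1.symm

end H71MU
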