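import Pool.Agent.H71MU.Ultra

/-!
The function `udist` is a bi-invariant metric on the metric ultraproduct (a check of the
definitions of `Pool.Agent.H71MU.Ultra`).
-/

namespace H71MU

open Filter Topology

universe u v

variable {ι : Type u} {H : ι → Type v} [∀ i, Group (H i)]
  (U : Ultrafilter ι) (d : ∀ i, H i → H i → ℝ) (hd : ∀ i, BiMetric (H i) (d i))

/-- The metric of the ultraproduct is a bi-invariant metric. -/
theorem udist_biMetric : BiMetric (Ultraproduct U d hd) (udist U d hd) := by
  refine ⟨?_, ?_, ?_, ?_, ?_⟩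
  · intro a b
    obtain ⟨h, rfl⟩ := QuotientGroup.mk_surjective a
    obtain ⟨k, rfl⟩ := QuotientGroup.mk_surjective b
    have h1 := tendsto_udist U d hd h k
    have h2 : (QuotientGroup.mk h : Ultraproduct U d hd) = QuotientGroup.mk k ↔
        Tendsto (fun i => d i (h.1 i) (k.1 i)) (U : Filter ι) (𝓝 0) := by
      rw [QuotientGroup.eq, mem_Null]
      have : (fun i => d i ((h⁻¹ * k : Bounded d hd).1 i) 1)
          = fun i => d i (h.1 i) (k.1 i) := by
        funext i
        exact ((hd i).eq_left _ _).symm
      rw [this]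
    rw [h2]
    constructor
    · intro h3
      rw [h3] at h1
      exact h1
    · intro h3
      exact tendsto_nhds_unique h1 h3
  · intro a b
    obtain ⟨h, rfl⟩ := QuotientGroup.mk_surjective a
    obtain ⟨k, rfl⟩ := QuotientGroup.mk_surjective b
    have h1 := tendsto_udist U d hd h k
    have h2 := tendsto_udist U d hd k h
    exact tendsto_nhds_unique h1 (h2.congr fun i => (hd i).symm _ _)
  · intro a b c
    obtain ⟨h, rfl⟩ := QuotientGroup.mk_surjective a
    obtain ⟨k, rfl⟩ := QuotientGroup.mk_surjective b
    obtain ⟨l, rfl⟩ := QuotientGroup.mk_surjective c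
    exact le_of_tendsto_of_tendsto' (tendsto_udist U d hd h l)
      ((tendsto_udist U d hd h k).add (tendsto_udist U d hd k l))
      fun i => (hd i).triangle _ _ _
  · intro g a b
    obtain ⟨l, rfl⟩ := QuotientGroup.mk_surjective g
    obtain ⟨h, rfl⟩ := QuotientGroup.mk_surjective a
    obtain ⟨k, rfl⟩ := QuotientGroup.mk_surjective b
    rw [← QuotientGroup.mk_mul, ← QuotientGroup.mk_mul]
    exact tendsto_nhds_unique (tendsto_udist U d hd (l * h) (l * k))
      ((tendsto_udist U d hd h k).congr fun i => ((hd i).left _ _ _).symm)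
  · intro g a b
    obtain ⟨l, rfl⟩ := QuotientGroup.mk_surjective g
    obtain ⟨h, rfl⟩ := QuotientGroup.mk_surjective a
    obtain ⟨k, rfl⟩ := QuotientGroup.mk_surjective b
    rw [← QuotientGroup.mk_mul, ← QuotientGroup.mk_mul]
    exact tendsto_nhds_unique (tendsto_udist U d hd (h * l) (k * l))
      ((tendsto_udist U d hd h k).congr fun i => ((hd i).right _ _ _).symm)

end H71MU
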